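import Pool.Agent.W547.GHX.Defs
import Pool.Agent.W544.PG.Defs8

/-!
# The generalized Tate conjecture for products of symmetric powers of surfaces
(definitions and statements of the parts)
-/

open Matrix Finset Module

namespace Pool.Agent.W547.GTX

open Pool.Agent.W544.PG Pool.Agent.W544.FF

noncomputable section

/-- the complex span of a space of functions with values in `K` -/
def cspK {K : Type} [Field K] (ι : K →+* ℂ) {X : Type} (W : Submodule K (X → K)) :
    Submodule ℂ (X → ℂ) :=
  Submodule.span ℂ {s | ∃ w ∈ W, s = fun J => ι (w J)}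

/-- forms in the span of products of at least `l` pairings of slots of equal colour with arbitrary
forms of the other variables -/
def insK {K : Type} [Field K] {n r k : ℕ} (Q : Matrix (Fin n) (Fin n) K) (c : Fin n → Fin r)
    (a : Fin k → Fin r) (l : ℕ) : Submodule K ((Fin k → Fin n) → K) :=
  Submodule.span K {s | ∃ (σ : Fin k → Fin k) (u : (Fin k → Fin n) → K), (∀ j, σ (σ j) = j) ∧
    (∀ j, a (σ j) = a j) ∧ 2 * l ≤ (univ.filter fun j => σ j ≠ j).card ∧
    (∀ J J', (∀ j, σ j = j → J j = J' j) → u J = u J') ∧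
    ∀ J, s J = (∏ j with j < σ j, if c (J j) = a j then Q (J j) (J (σ j)) else 0) * u J}

/-- The part of the cohomology of the product of the surfaces `S_(a 1), ..., S_(a m)` given by
products of: algebraic classes on the factors in `A` (of codimensions `e`), transcendental parts of
diagonals (codimension two, given by the form `Q`) on pairs of equal factors, and an arbitrary
class `u` on the other factors; the total codimension of the algebraic part is at least `j`.  These
classes are supported in codimension `j`.  (`cd b` is the codimension of the `b`-th algebraic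
class, `d b` its surface.) -/
def conivK {K : Type} [Field K] {n r s m : ℕ} (Q : Matrix (Fin n) (Fin n) K) (c : Fin n → Fin r)
    (d : Fin s → Fin r) (cd : Fin s → ℕ) (a : Fin m → Fin r) (j : ℕ) :
    Submodule K ((Fin m → Fin s ⊕ Fin n) → K) :=
  Submodule.span K {t | ∃ (A : Finset (Fin m)) (σ : Fin m → Fin m) (e : Fin m → ℕ)
    (ν : Fin m → Fin s → K) (u : (Fin m → Fin s ⊕ Fin n) → K), (∀ i, σ (σ i) = i) ∧
    (∀ i, a (σ i) = a i) ∧ (∀ i ∈ A, σ i = i) ∧ (∀ i b, ν i b ≠ 0 → cd b = e i ∧ d b = a i) ∧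
    (∀ J J', (∀ i, i ∉ A → σ i = i → J i = J' i) → u J = u J') ∧
    j ≤ ∑ i ∈ A, e i + (univ.filter fun i => σ i ≠ i).card ∧
    ∀ J, t J = (∏ i ∈ A, Sum.elim (ν i) (fun _ => 0) (J i)) *
      (∏ i with i < σ i,
        if Sum.elim d c (J i) = a i then Matrix.fromBlocks 0 0 0 Q (J i) (J (σ i)) else 0) *
      u J}

/-- The conclusion of (GQSK) for `Q`, `x`: complex spaces of forms on `T` -/
def CTK {K : Type} [Field K] (ι : K →+* ℂ) {n r : ℕ} (Q : Matrix (Fin n) (Fin n) K)
    (x : Matrix (Fin n) (Fin n) ℂ) (c : Fin n → Fin r) (p : Fin r → ℕ) : Prop :=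
  ∀ (k b l : ℕ) (a : Fin k → Fin r) (f : Fin k → Fin b), (∀ j j', f j = f j' → a j = a j') →
  (∀ i, nb f a i ≤ p i) →
  ∀ M : Submodule ℂ ((Fin k → Fin n) → ℂ), (∀ w ∈ M, Supp c a w) → (∀ w ∈ M, SymF f w) →
  (∀ Z : Matrix (Fin n) (Fin n) ℂ, Zᵀ * Q.map ι + Q.map ι * Z = 0 → BD c Z →
    ∀ w ∈ M, act Z w ∈ M) →
  (∀ e : ℤ, 0 ≤ e → (k : ℤ) - 2 * l + 1 < e → ∀ w ∈ M, act x w = (e : ℂ) • w → w = 0) →
  M ≤ cspK ι (insK Q c a l)

end

end Pool.Agent.W547.GTX
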