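import Pool.Agent.W547.GTX.Rho
import Pool.Agent.W538.GX.Ghtc

/-!
# From `T` to the total cohomology, complex spaces, any field (after `Pool.Agent.W538.GX.Ghtc`)
-/

set_option autoImplicit false

open Matrix Finset Module

namespace Pool.Agent.W547.GTX

open Pool.Agent.W544.PG Pool.Agent.W544.FF Pool.Agent.W338.PG.Ght Pool.Agent.W352.PG.Ghtp
open Pool.Agent.W143.PG Pool.Agent.W547.GHX Pool.Agent.W538.GX

noncomputable section

variable {n s m k : ℕ}

variable {q : Fin m → Fin s ⊕ Fin k} {ε : Fin k → Fin m}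

variable {F : Type} [Field F]

theorem rhoK_cx (ι : F →+* ℂ) (q : Fin m → Fin s ⊕ Fin k) (g : (Fin k → Fin n) → F) :
    rhoC q (fun K => ι (g K)) = fun J => ι (rhoK q g J) := by
  funext J
  show (∑ K, if mrg q K = J then ι (g K) else 0) =
    ι (∑ K, if mrg q K = J then g K else 0)
  rw [map_sum]
  refine sum_congr rfl fun K _ => ?_
  split_ifs <;> simp

theorem rhoC_cspK (ι : F →+* ℂ) {W : Submodule F ((Fin k → Fin n) → F)}
    {W' : Submodule F ((Fin m → Fin s ⊕ Fin n) → F)} (h : ∀ g ∈ W, rhoK q g ∈ W')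
    {g : (Fin k → Fin n) → ℂ} (hg : g ∈ cspK ι W) : rhoC q g ∈ cspK ι W' := by
  have key : (cspK ι W).map (rhoC q) ≤ cspK ι W' := by
    unfold cspK
    rw [Submodule.map_span_le]
    rintro _ ⟨w, hw, rfl⟩
    rw [rhoK_cx]
    exact Submodule.subset_span ⟨_, h w hw, rfl⟩
  exact key ⟨g, hg, rfl⟩

theorem top_cspK (ι : F →+* ℂ) {X : Type} [Fintype X] [DecidableEq X] {W : Submodule F (X → F)}
    (h : ∀ g, g ∈ W) (g : X → ℂ) : g ∈ cspK ι W := by
  have h1 : g = ∑ x, g x • (fun J => ι ((Pi.single x 1 : X → F) J)) := by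
    funext J
    rw [Finset.sum_apply, sum_eq_single J]
    · simp
    · intro x _ hx
      rw [Pi.smul_apply, Pi.single_eq_of_ne (Ne.symm hx)]
      simp
    · intro hJ
      exact absurd (mem_univ _) hJ
  rw [h1]
  refine Submodule.sum_mem _ fun x _ => Submodule.smul_mem _ _ ?_
  exact Submodule.subset_span ⟨_, h _, rfl⟩

theorem ghtk (ι : F →+* ℂ) (n r s m b c j : ℕ) (Q : Matrix (Fin n) (Fin n) F)
    (x : Matrix (Fin n) (Fin n) ℂ) (hskew : xᵀ * Q.map ι + Q.map ι * x = 0)
    (cc : Fin n → Fin r) (hbx : BD cc x) (d : Fin s → Fin r)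
    (cd : Fin s → ℕ) (a : Fin m → Fin r) (f : Fin m → Fin b) (p : Fin r → ℕ)
    (H : CTK ι Q x cc p) (hfa : ∀ i i', f i = f i' → a i = a i')
    (M : Submodule ℂ ((Fin m → Fin s ⊕ Fin n) → ℂ)) (hMf : ∀ w ∈ M, SymF f w)
    (hMZ : ∀ Z : Matrix (Fin n) (Fin n) ℂ, Zᵀ * Q.map ι + Q.map ι * Z = 0 → BD cc Z →
      ∀ w ∈ M, act (fromBlocks 0 0 0 Z) w ∈ M)
    (hMc : ∀ w ∈ M, ∀ J, w J ≠ 0 → (∀ i, Sum.elim d cc (J i) = a i) ∧
      ∑ i, Sum.elim cd (fun _ => 1) (J i) = c ∧
      ∀ i, (univ.filter fun x : Fin b => ∃ y z, f y = x ∧ J y = Sum.inr z ∧ cc z = i).card ≤ p i)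
    (hMa : ∀ e : ℤ, 0 ≤ e → (c : ℤ) - j < e → ∀ w ∈ M,
      act (fromBlocks 0 0 0 x) w = (e : ℂ) • w → w = 0) :
    M ≤ cspK ι (conivK Q cc d cd a j) := by
  intro w hw
  have hMs : ∀ w ∈ M, act (fromBlocks 0 0 0 x) w ∈ M := hMZ x hskew hbx
  classical
  -- the parts of `w`
  have hsum : w = ∑ q' : Fin m → Option (Fin s), fun J =>
      if (fun i => Sum.elim some (fun _ => none) (J i)) = q' then w J else 0 := by
    funext J
    rw [Finset.sum_apply, Finset.sum_ite_eq, if_pos (mem_univ _)]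
  rw [hsum]
  refine Submodule.sum_mem _ fun q' _ => ?_
  obtain ⟨k, q, ε, h, hq'⟩ := pt_exists q'
  have hpart : (fun J => if (fun i => Sum.elim some (fun _ => none) (J i)) = q' then w J else 0) =
      rhoC q (fun K => w (mrg q K)) := by
    funext J
    by_cases hJ : ∃ K, mrg q K = J
    · obtain ⟨K, rfl⟩ := hJ
      rw [rhoC_mrg h, if_pos]
      funext i
      rw [hq' i]
      unfold mrg
      rcases q i with a | i' <;> rfl
    · rw [rhoC_not _ _ fun K hK => hJ ⟨K, hK⟩, if_neg]
      intro he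
      have h1 : ∀ i', ∃ c, J (ε i') = Sum.inr c := by
        intro i'
        have h2 := congrFun he (ε i')
        rw [hq' (ε i'), h.qe, Sum.elim_inr] at h2
        rcases hJi : J (ε i') with a | a
        · rw [hJi] at h2
          exact absurd h2 (by simp)
        · exact ⟨a, rfl⟩
      choose K hK using h1
      refine hJ ⟨K, funext fun i => ?_⟩
      unfold mrg
      rcases hq : q i with b | i'
      · have h2 := congrFun he i
        rw [hq' i, hq, Sum.elim_inl] at h2
        rcases hJi : J i with a | a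
        · rw [hJi, Sum.elim_inl] at h2
          rw [Option.some_injective _ h2]
          rfl
        · rw [hJi] at h2
          exact absurd h2 (by simp)
      · rw [← h.eq i i' hq, hK]
        rfl
  rw [hpart]
  by_cases hz : ∀ w₁ ∈ M, ∀ K : Fin k → Fin n, w₁ (mrg q K) = 0
  · have h1 : (fun K : Fin k → Fin n => w (mrg q K)) = 0 := funext fun K => hz w hw K
    rw [h1, map_zero]
    exact Submodule.zero_mem _
  push Not at hz
  obtain ⟨w₁, hw₁, K₁, hK₁⟩ := hz
  obtain ⟨hcol, hc, hkp⟩ := hMc w₁ hw₁ _ hK₁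
  have hd : ∀ i b, q i = Sum.inl b → d b = a i := by
    intro i b hb
    have h1 := hcol i
    unfold mrg at h1
    rw [hb] at h1
    exact h1
  have hcK : ∀ i', cc (K₁ i') = a (ε i') := by
    intro i'
    have h1 := hcol (ε i')
    rw [mrg_e h] at h1
    exact h1
  have hcard : (univ.filter fun i => (mrg q K₁ i).isRight = true).card = k := by
    have h1 : (univ.filter fun i => (mrg q K₁ i).isRight = true) = univ.image ε := by
      ext i
      rw [mem_filter, mem_image]
      constructor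
      · rintro ⟨-, hi⟩
        unfold mrg at hi
        rcases hq : q i with b | i'
        · rw [hq] at hi
          exact absurd hi (by simp)
        · exact ⟨i', mem_univ _, h.eq i i' hq⟩
      · rintro ⟨i', -, rfl⟩
        refine ⟨mem_univ _, ?_⟩
        rw [mrg_e h]
        rfl
    rw [h1, card_image_of_injective _ h.mono.injective, card_univ, Fintype.card_fin]
  have hns : ∀ i, nb (fun i' => f (ε i')) (fun i' => a (ε i')) i ≤ p i := by
    intro i
    refine le_trans ?_ (hkp i)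
    unfold nb
    refine card_le_card fun x hx => ?_
    obtain ⟨-, i', h1, h2⟩ := mem_filter.1 hx
    refine mem_filter.2 ⟨mem_univ _, ε i', K₁ i', h1, mrg_e h K₁ i', ?_⟩
    rw [hcK]
    exact h2
  have hck : ∑ i, Sum.elim cd (fun _ => 0) (q i) + k = c := by
    have h1 : ∀ i, Sum.elim cd (fun _ => 1) (mrg q K₁ i) = Sum.elim cd (fun _ => 0) (q i) +
        if (mrg q K₁ i).isRight = true then 1 else 0 := by
      intro i
      unfold mrg
      rcases q i with b | i' <;> simp
    rw [← hc]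
    simp_rw [h1]
    rw [sum_add_distrib, ← card_filter, hcard]
  obtain ⟨e, he⟩ : ∃ e, e = ∑ i, Sum.elim cd (fun _ => 0) (q i) := ⟨_, rfl⟩
  by_cases hje : j ≤ e
  · refine rhoC_cspK ι (W := insK Q cc (fun i' => a (ε i')) 0) (fun g hg =>
      rhoK_coniv Q cc d h cd a hd 0 j (by rw [← he]; omega) hg) ?_
    exact top_cspK ι (fun g => insK0 Q cc _ g) _
  -- the main case
  obtain ⟨l, hl⟩ : ∃ l, l = (j - e + 1) / 2 := ⟨_, rfl⟩
  refine rhoC_cspK ι (W := insK Q cc (fun i' => a (ε i')) l) (fun g hg =>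
      rhoK_coniv Q cc d h cd a hd l j (by rw [← he]; omega) hg) ?_
  have hcomm : ∀ v : (Fin m → Fin s ⊕ Fin n) → ℂ,
      LinearMap.funLeft ℂ ℂ (mrg q) (actL (fromBlocks 0 0 0 x) v) =
        actL x (LinearMap.funLeft ℂ ℂ (mrg (n := n) q) v) := fun v => (act_commZ h x v).symm
  have hle : M.map (LinearMap.funLeft ℂ ℂ (mrg (n := n) q)) ≤
      cspK ι (insK Q cc (fun i' => a (ε i')) l) := by
    refine H k b l (fun i' => a (ε i')) (fun i' => f (ε i')) (fun i i' hi => hfa _ _ hi) hns
      _ ?_ ?_ ?_ ?_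
    · intro v hv K hK i'
      obtain ⟨v, hv, rfl⟩ := hv
      have h1 := (hMc v hv (mrg q K) hK).1 (ε i')
      rw [mrg_e h] at h1
      exact h1
    · intro v hv π' hπ' K
      obtain ⟨v, hv, rfl⟩ := hv
      obtain ⟨ιe, hι⟩ : ∃ ιe : Fin k ↪ Fin m, ∀ i', ιe i' = ε i' :=
        ⟨⟨ε, h.mono.injective⟩, fun _ => rfl⟩
      have p1 : ∀ i', (π'.viaEmbedding ιe) (ε i') = ε (π' i') := by
        intro i'
        rw [← hι i', ← hι (π' i')]
        exact Equiv.Perm.viaEmbedding_apply π' ιe i'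
      have p2 : ∀ i b', q i = Sum.inl b' → (π'.viaEmbedding ιe) i = i := by
        intro i b' hb'
        refine Equiv.Perm.viaEmbedding_apply_of_notMem π' ιe i ?_
        rintro ⟨i', hi'⟩
        rw [← hi', hι, h.qe] at hb'
        cases hb'
      have p3 : ∀ i, f ((π'.viaEmbedding ιe) i) = f i := by
        intro i
        rcases hq : q i with b' | i'
        · rw [p2 i b' hq]
        · rw [← h.eq i i' hq, p1]
          exact hπ' i'
      have p4 : mrg (n := n) q (fun j => K (π' j)) = fun i => mrg q K ((π'.viaEmbedding ιe) i) := by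
        funext i
        rcases hq : q i with b' | i'
        · rw [p2 i b' hq]
          unfold mrg
          rw [hq]
          rfl
        · rw [← h.eq i i' hq, p1, mrg_e h, mrg_e h]
      have p5 := hMf v hv (π'.viaEmbedding ιe) p3 (mrg q K)
      rw [← p4] at p5
      exact p5
    · intro Z hZ1 hZ2 v hv
      obtain ⟨v, hv, rfl⟩ := hv
      exact ⟨act (fromBlocks 0 0 0 Z) v, hMZ Z hZ1 hZ2 v hv, (act_commZ h Z v).symm⟩
    · intro a ha0 ha v hv
      refine quot (actL (fromBlocks 0 0 0 x)) (actL x) (LinearMap.funLeft ℂ ℂ (mrg q)) hcomm M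
        hMs (a : ℂ) ?_ v hv
      refine hMa a ha0 ?_
      have h1 : (c : ℤ) = e + k := by rw [he]; exact_mod_cast hck.symm
      omega
  exact hle ⟨w, hw, rfl⟩

end

end Pool.Agent.W547.GTX
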