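import Pool.Agent.W547.GTX.Defs
import Pool.Agent.W883.FF.Gqs

/-!
# From orthonormal coordinates to `Q`, any field (adapted from `Pool.Agent.W89.GX.Gqsc`)
-/

set_option autoImplicit false

open Matrix Finset Module

namespace Pool.Agent.W547.GTX

open Pool.Agent.W544.PG Pool.Agent.W544.FF Pool.Agent.W976.PG Pool.Agent.W547.GHX

noncomputable section

/-- (GQSK) -/
theorem gqsk (hg1 : S_g1sp) {K : Type} [Field K] (ι : K →+* ℂ) (n r : ℕ)
    (Q : Matrix (Fin n) (Fin n) K) (x : Matrix (Fin n) (Fin n) ℂ) (c : Fin n → Fin r)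
    (p q : Fin r → ℕ) (hsymm : Qᵀ = Q) (hdet0 : Q.det ≠ 0) (hbQ : BD c Q) (hbx : BD c x)
    (hskew : xᵀ * Q.map ι + Q.map ι * x = 0) (hcube : x * x * x = x)
    (htr : ∀ i, ∑ y with c y = i, (x * x) y y = 2 * (p i : ℂ))
    (hcard : ∀ i, (univ.filter fun y => c y = i).card = 2 * p i + q i ∧ 0 < q i) :
    CTK ι Q x c p := by
  intro k b l a f hfa hns M hsup hsym hW hW'
  classical
  have hQT : (Q.map ι)ᵀ = Q.map ι := by
    rw [← Matrix.transpose_map, hsymm]
  have hbQC : BD c (Q.map ι) := by
    intro x y hxy
    rw [Matrix.map_apply, hbQ x y hxy, map_zero]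
  have hdet : (Q.map ι).det ≠ 0 := by
    have h0 : ι Q.det = (Q.map ι).det := ι.map_det Q
    rw [← h0]
    exact (map_ne_zero ι).2 hdet0
  obtain ⟨g, hbg, hg⟩ := Pool.Agent.W918.PG.orthBD c (Q.map ι) hbQC hQT hdet
  set h : Matrix (Fin n) (Fin n) ℂ := gᵀ * Q.map ι with hh
  have hgh : g * h = 1 := mul_eq_one_comm.1 hg
  have hbgT : BD c gᵀ := fun i y hxy => hbg y i (Ne.symm hxy)
  have hbh : BD c h := Pool.Agent.W918.PG.bd_mul hbgT hbQC
  have hhT : hᵀ = Q.map ι * g := by
    rw [hh, Matrix.transpose_mul, Matrix.transpose_transpose, hQT]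
  have hhh : hᵀ * h = Q.map ι := by
    rw [hhT, mul_assoc, hgh, mul_one]
  -- the Hodge operator in orthonormal coordinates
  have hX1 : (h * x * g)ᵀ = -(h * x * g) := by
    have e : xᵀ * Q.map ι = -(Q.map ι * x) := eq_neg_of_add_eq_zero_left hskew
    calc (h * x * g)ᵀ = gᵀ * (xᵀ * Q.map ι) * g := by
          rw [Matrix.transpose_mul, Matrix.transpose_mul, hhT]
          simp only [mul_assoc]
      _ = -(h * x * g) := by
          rw [e, mul_neg, neg_mul, hh]
          simp only [mul_assoc]
  have hX2 : h * x * g * (h * x * g) * (h * x * g) = h * x * g := by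
    calc h * x * g * (h * x * g) * (h * x * g) =
        h * x * (g * h) * x * (g * h) * x * g := by simp only [mul_assoc]
      _ = h * (x * x * x) * g := by
        rw [hgh]
        simp only [mul_assoc, mul_one]
      _ = h * x * g := by rw [hcube]
  have hbX : BD c (h * x * g) :=
    Pool.Agent.W918.PG.bd_mul (Pool.Agent.W918.PG.bd_mul hbh hbx) hbg
  have hX3 : ∀ i, ∑ b with c b = i, (h * x * g * (h * x * g)) b b = 2 * (p i : ℂ) := by
    intro i
    rw [← htr i, tr_cd, tr_cd]
    have hc := (Pool.Agent.W918.PG.bd_iff c h).1 hbh i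
    calc (Pool.Agent.W918.PG.cd c i * (h * x * g * (h * x * g))).trace
        = (Pool.Agent.W918.PG.cd c i * h * (x * (g * h) * x * g)).trace := by
          simp only [mul_assoc]
      _ = (h * (Pool.Agent.W918.PG.cd c i * (x * x) * g)).trace := by
          rw [hc, hgh]
          simp only [mul_assoc, mul_one]
      _ = (Pool.Agent.W918.PG.cd c i * (x * x)).trace := by
        rw [Matrix.trace_mul_comm, mul_assoc, hgh, mul_one]
  have hact : ∀ (Z : Matrix (Fin n) (Fin n) ℂ) (w : (Fin k → Fin n) → ℂ),
      act Z (pull g w) = pull g (act (g * Z * h) w) := fun Z w =>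
    Pool.Agent.W563.PG.Gq.act_pull (by rw [mul_assoc, hg, mul_one]) w
  have hM := hg1 n r k b l c a f p (h * x * g) hX1 hX2 hbX hX3 hfa
    (fun i => Or.inl ⟨hns i, by have h1 := hcard i; have h2 := hns i; omega⟩)
    (M.map (Pool.Agent.W563.PG.Gq.pullL g)) ?_ ?_ ?_ ?_
  · -- the empty case
    rcases Nat.eq_zero_or_pos n with hn | hn
    · subst hn
      intro w hw
      rcases Nat.eq_zero_or_pos k with hk | hk
      · subst hk
        rcases Nat.eq_zero_or_pos l with hl | hl
        · subst hl
          have hone : (fun _ : Fin 0 → Fin 0 => (1 : K)) ∈ insK Q c a 0 := by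
            refine Submodule.subset_span ⟨id, fun _ => 1, fun j => rfl, fun j => rfl, ?_, ?_, ?_⟩
            · simp
            · intro J J' _
              rfl
            · intro J
              simp
          have hww : w = w (fun j => j.elim0) •
              (fun J : Fin 0 → Fin 0 => ι (1 : K)) := by
            funext J
            simp only [Pi.smul_apply, smul_eq_mul, map_one, mul_one]
            congr 1
            exact Subsingleton.elim _ _
          rw [hww]
          exact Submodule.smul_mem _ _ (Submodule.subset_span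
            ⟨fun _ : Fin 0 → Fin 0 => (1 : K), hone, rfl⟩)
        · have h1 := hW' 0 le_rfl (by simp; omega) w hw (by
            funext J
            simp [act])
          rw [h1]
          exact Submodule.zero_mem _
      · have h2 : w = 0 := by
          funext J
          exact (J ⟨0, hk⟩).elim0
        rw [h2]
        exact Submodule.zero_mem _
    intro w hw
    have h1 : pull g w ∈ insC2 c a l :=
      hM ⟨w, hw, rfl⟩
    have h2 : w ∈ (insC2 c a l).map (Pool.Agent.W563.PG.Gq.pullL h) :=
      ⟨_, h1, by
        change pull h (pull g w) = w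
        rw [Pool.Agent.W563.PG.Gq.pull_pull, hgh, Pool.Agent.W563.PG.Gq.pull_one]⟩
    have h3 : (insC2 c a l).map (Pool.Agent.W563.PG.Gq.pullL h) ≤
        Submodule.span ℂ ((fun (t : (Fin k → Fin n) → K) J => ι (t J)) ''
          (insK Q c a l : Set ((Fin k → Fin n) → K))) := by
      rw [insC2, Submodule.map_span, Submodule.span_le]
      rintro _ ⟨s, ⟨σ, u, hσ, hσa, hl, hu, hs⟩, rfl⟩
      have z : Fin n := ⟨0, hn⟩
      -- first decomposition
      set b : (Fin k → Fin n) → ℂ := fun d => if ∀ j, σ j ≠ j → d j = z then u d else 0 with hb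
      have hcol : ∀ J K : Fin k → Fin n, (∏ j, h (K j) (J j)) *
          (∏ j with j < σ j, if K j = K (σ j) ∧ c (K j) = a j then (1 : ℂ) else 0) =
          (∏ j with j < σ j, if c (J j) = a j then (1 : ℂ) else 0) * ((∏ j, h (K j) (J j)) *
          (∏ j with j < σ j, if K j = K (σ j) then (1 : ℂ) else 0)) := by
        intro J K
        by_cases h0 : ∏ j, h (K j) (J j) = 0
        · rw [h0]
          simp
        · replace h0 := Finset.prod_ne_zero_iff.1 h0
          have h4 : ∀ j, c (K j) = c (J j) := fun j => by
            by_contra h5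
            exact h0 j (Finset.mem_univ j) (hbh _ _ h5)
          rw [mul_left_comm, ← Finset.prod_mul_distrib]
          congr 1
          refine Finset.prod_congr rfl fun j _ => ?_
          rw [h4 j]
          by_cases h6 : K j = K (σ j) <;> by_cases h7 : c (J j) = a j <;> simp [h6, h7]
      have e1 : Pool.Agent.W563.PG.Gq.pullL h s = ∑ d : Fin k → Fin n, b d • fun J =>
          (∏ j with j < σ j, if c (J j) = a j then Q.map ι (J j) (J (σ j)) else 0) *
            ∏ j with σ j = j, h (d j) (J j) := by
        funext J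
        rw [Finset.sum_apply]
        simp only [Pi.smul_apply, smul_eq_mul]
        have e0 : ∀ d : Fin k → Fin n, (∏ j with j < σ j,
            if c (J j) = a j then Q.map ι (J j) (J (σ j)) else 0) *
            ∏ j with σ j = j, h (d j) (J j) =
            (∏ j with j < σ j, if c (J j) = a j then (1 : ℂ) else 0) *
            ∑ K : Fin k → Fin n, (∏ j, h (K j) (J j)) *
      ((∏ j with j < σ j, if K j = K (σ j) then (1 : ℂ) else 0) *
        ∏ j with σ j = j, if K j = d j then (1 : ℂ) else 0) := by
          intro d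
          rw [Pool.Agent.W563.PG.Gq.pull_pairs h σ hσ d J, ← mul_assoc,
            ← Finset.prod_mul_distrib, hhh]
          congr 1
          refine Finset.prod_congr rfl fun j _ => ?_
          split_ifs <;> simp
        simp only [e0, Finset.mul_sum]
        rw [Finset.sum_comm]
        change ∑ K : Fin k → Fin n, (∏ j, h (K j) (J j)) * s K = _
        refine Finset.sum_congr rfl fun K _ => ?_
        rw [hs K, ← mul_assoc, hcol J K, Pool.Agent.W563.PG.Gq.dec_fix z σ u hu K,
          Finset.mul_sum]
        refine Finset.sum_congr rfl fun d _ => ?_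
        rw [hb]
        ring
      rw [e1]
      refine Submodule.sum_mem _ fun d _ => Submodule.smul_mem _ _ ?_
      -- second decomposition
      have e2 : (fun J : Fin k → Fin n =>
          (∏ j with j < σ j, if c (J j) = a j then Q.map ι (J j) (J (σ j)) else 0) *
            ∏ j with σ j = j, h (d j) (J j)) =
          ∑ d' : Fin k → Fin n, (if ∀ j, σ j ≠ j → d' j = z then
            (∏ j with σ j = j, h (d j) (d' j)) else 0) • fun J =>
            ι ((∏ j with j < σ j, if c (J j) = a j then Q (J j) (J (σ j)) else 0) *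
              ∏ j with σ j = j, if J j = d' j then (1 : K) else 0) := by
        funext J
        rw [Finset.sum_apply]
        simp only [Pi.smul_apply, smul_eq_mul]
        rw [Pool.Agent.W563.PG.Gq.dec_fix z σ (fun J => ∏ j with σ j = j, h (d j) (J j))
          (fun J J' hJ =>
          Finset.prod_congr rfl fun j hj => by rw [hJ j (by simpa using hj)]) J, Finset.mul_sum]
        refine Finset.sum_congr rfl fun d' _ => ?_
        rw [map_mul, map_prod, map_prod]
        have e3 : ∀ j, ι (if J j = d' j then (1 : K) else 0) =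
            if J j = d' j then (1 : ℂ) else 0 := fun j => by split_ifs <;> simp
        have e4 : ∀ j, ι (if c (J j) = a j then Q (J j) (J (σ j)) else 0) =
            if c (J j) = a j then Q.map ι (J j) (J (σ j)) else 0 := fun j => by
          split_ifs <;> simp
        simp only [e3, e4]
        ring
      rw [e2]
      refine Submodule.sum_mem _ fun d' _ => Submodule.smul_mem _ _ (Submodule.subset_span ?_)
      refine ⟨fun J => (∏ j with j < σ j, if c (J j) = a j then Q (J j) (J (σ j)) else 0) *
              ∏ j with σ j = j, (if J j = d' j then (1 : K) else 0), ?_, rfl⟩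
      refine Submodule.subset_span ⟨σ, _, hσ, hσa, hl, ?_, fun J => rfl⟩
      intro J J' hJ
      exact Finset.prod_congr rfl fun j hj => by rw [hJ j (by simpa using hj)]
    have h4 : Submodule.span ℂ ((fun (t : (Fin k → Fin n) → K) J => ι (t J)) ''
          (insK Q c a l : Set ((Fin k → Fin n) → K))) ≤ cspK ι (insK Q c a l) := by
      refine Submodule.span_mono ?_
      rintro _ ⟨t, ht, rfl⟩
      exact ⟨t, ht, rfl⟩
    exact h4 (h3 h2)
  · -- support
    rintro _ ⟨w, hw, rfl⟩
    exact supp_pull hbg (hsup w hw)
  · -- symmetry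
    rintro _ ⟨w, hw, rfl⟩
    exact Pool.Agent.W883.FF.symF_pull (hsym w hw)
  · -- stability under `so(n)`
    rintro Z hZ hbZ _ ⟨w, hw, rfl⟩
    refine ⟨act (g * Z * h) w, hW _ ?_ ?_ w hw, (hact Z w).symm⟩
    · rw [Matrix.transpose_mul (g * Z) h, Matrix.transpose_mul g Z, hZ, hhT]
      have h1 : Q.map ι * g * (-Z * gᵀ) * Q.map ι = -(Q.map ι * (g * Z * h)) := by
        rw [hh]
        simp only [mul_assoc, neg_mul, mul_neg]
      rw [h1, neg_add_cancel]
    · exact Pool.Agent.W918.PG.bd_mul (Pool.Agent.W918.PG.bd_mul hbg hbZ) hbh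
  · -- weights
    rintro e he0 he _ ⟨w, hw, rfl⟩ hs
    have h1 : act x w = (e : ℂ) • w := by
      have h2 : act (h * x * g) (pull g w) = (e : ℂ) • pull g w := hs
      rw [hact] at h2
      have h3 : g * (h * x * g) * h = x := by
        calc g * (h * x * g) * h = (g * h) * x * (g * h) := by simp only [mul_assoc]
          _ = x := by rw [hgh, one_mul, mul_one]
      rw [h3] at h2
      have h4 := congrArg (pull h) h2
      rw [Pool.Agent.W563.PG.Gq.pull_pull, hgh, Pool.Agent.W563.PG.Gq.pull_one] at h4
      rw [h4]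
      change Pool.Agent.W563.PG.Gq.pullL h ((e : ℂ) • Pool.Agent.W563.PG.Gq.pullL g w) = _
      rw [map_smul]
      change (e : ℂ) • pull h (pull g w) = _
      rw [Pool.Agent.W563.PG.Gq.pull_pull, hgh, Pool.Agent.W563.PG.Gq.pull_one]
    change pull g w = 0
    rw [hW' e he0 he w hw h1]
    exact map_zero (Pool.Agent.W563.PG.Gq.pullL g)

end

end Pool.Agent.W547.GTX
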