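import Pool.Agent.W547.GTX.Gq
import Pool.Agent.W547.GTX.Ght
import Pool.Agent.W547.GHX.G1SP
import Pool.Agent.W544.FF.Final3
import Pool.Agent.W547.GAL.Main
import Pool.Agent.W216.TP.DK

/-!
# The generalized Tate conjecture for products of symmetric powers of surfaces
-/

set_option autoImplicit false

open Matrix Finset Module

namespace Pool.Agent.W547.GTX

open Pool.Agent.W544.PG Pool.Agent.W544.FF Pool.Agent.W547.GAL

noncomputable section

variable {K : Type} [Field K] {Γ : Type} [Group Γ] [TopologicalSpace Γ] {n r s m b : ℕ}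

/-- A slope operator on `T ⊗ ℂ`: it is skew for the form `Q`, compatible with the decomposition
`T = ⊕ T_i`, and equal to `1`, `0`, `-1` on subspaces of dimensions `p_i`, `q_i`, `p_i` of
`T_i ⊗ ℂ`.  The examples are the Sen operator, and the operator given by the slopes of the
Frobenius at a place where the Newton polygons of the `T_i` are equal to the Hodge polygons. -/
structure Slope (T : GR K Γ n) (c : Fin n → Fin r) (p : Fin r → ℕ)
    (N : Matrix (Fin n) (Fin n) ℂ) : Prop where
  skew : Nᵀ * T.Q.map T.ι + T.Q.map T.ι * N = 0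
  bd : BD c N
  cube : N * N * N = N
  tr : ∀ i, ∑ a with c a = i, (N * N) a a = 2 * (p i : ℂ)

/-- `V` is a space of classes of degree `2k` on the product of the symmetric powers given by `f`,
in whose Kuenneth components `T_i` occurs in at most `p_i` of the symmetric powers; it is stable
under the Lie algebra `L` of the image of Galois, and its slopes (eigenvalues of `N` on `V ⊗ ℂ`)
have absolute value at most `k - j`. -/
structure OkV (T : GR K Γ n) (c : Fin n → Fin r) (d : Fin s → Fin r) (cd : Fin s → ℕ)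
    (a : Fin m → Fin r) (f : Fin m → Fin b) (p : Fin r → ℕ) (N : Matrix (Fin n) (Fin n) ℂ)
    (k j : ℕ) (V : Submodule K ((Fin m → Fin s ⊕ Fin n) → K)) : Prop where
  /-- symmetric under the permutations of the factors in each block -/
  sym : ∀ v ∈ V, SymF f v
  /-- degree `2k` on the product of the surfaces `S_(a 1), ..., S_(a m)`, and few `T_i` -/
  deg : ∀ v ∈ V, ∀ J, v J ≠ 0 → (∀ i, Sum.elim d c (J i) = a i) ∧
    ∑ i, Sum.elim cd (fun _ => 1) (J i) = k ∧
    ∀ i, (univ.filter fun x : Fin b => ∃ y z, f y = x ∧ J y = Sum.inr z ∧ c z = i).card ≤ p i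
  /-- stable under the Lie algebra of the image of Galois -/
  lie : ∀ y ∈ T.L, ∀ v ∈ V, actK (fromBlocks 0 0 0 y) v ∈ V
  /-- the slopes -/
  lev : ∀ e : ℤ, (k : ℤ) - j < |e| → ∀ v ∈ cspK T.ι V,
    act (fromBlocks 0 0 0 N) v = (e : ℂ) • v → v = 0

theorem csp_ind {ι : K →+* ℂ} {X : Type} (V : Submodule K (X → K)) (P : (X → ℂ) → Prop)
    (h0 : P 0) (ha : ∀ u v, P u → P v → P (u + v)) (hs : ∀ (z : ℂ) u, P u → P (z • u))
    (h : ∀ t ∈ V, P (fun J => ι (t J))) : ∀ t ∈ cspK ι V, P t := by
  intro t ht
  induction ht using Submodule.span_induction with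
  | mem x hx =>
    obtain ⟨w, hw, rfl⟩ := hx
    exact h w hw
  | zero => exact h0
  | add x y _ _ hx hy => exact ha _ _ hx hy
  | smul z x _ hx => exact hs z _ hx

variable {T : GR K Γ n} {c : Fin n → Fin r} {p q : Fin r → ℕ}

/-- **The generalized Tate conjecture for products of symmetric powers of surfaces.** -/
theorem main (hT : T.Big c p q) (N : Matrix (Fin n) (Fin n) ℂ) (hN : Slope T c p N)
    (d : Fin s → Fin r) (cd : Fin s → ℕ) (a : Fin m → Fin r) (f : Fin m → Fin b)
    (hf : ∀ i i', f i = f i' → a i = a i') (k j : ℕ)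
    (V : Submodule K ((Fin m → Fin s ⊕ Fin n) → K)) (hV : OkV T c d cd a f p N k j V) :
    V ≤ conivK T.Q c d cd a j := by
  have hq : ∀ i, 0 < q i := by
    intro i
    rcases hT.num i with h | ⟨h0, h⟩
    · exact h.2.1
    · by_contra hq
      have : q i = 0 := by omega
      rw [this, Nat.zero_sub, Nat.zero_mul] at h
      omega
  have hCT : CTK T.ι T.Q N c p := gqsk (Pool.Agent.W547.GHX.g1sp g2sF) T.ι n r T.Q N c p q T.symm
    hT.red.det hT.bQ hN.bd hN.skew hN.cube hN.tr (fun i => ⟨hT.rk i, hq i⟩)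
  have key := ghtk T.ι n r s m b k j T.Q N hN.skew c hN.bd d cd a f p hCT hf (cspK T.ι V)
    ?_ ?_ ?_ (fun e h0 he v hv hv' => hV.lev e (by rw [abs_of_nonneg h0]; exact he) v hv hv')
  · intro v hv
    have h1 := key (Submodule.subset_span ⟨v, hv, rfl⟩)
    have h2 := W216.TP.mk K T.ι (Fin m → Fin s ⊕ Fin n)
      (conivK T.Q c d cd a j : Set ((Fin m → Fin s ⊕ Fin n) → K)) v h1
    rwa [Submodule.span_eq] at h2
  · -- symmetric
    refine csp_ind V (fun v => SymF f v) ?_ ?_ ?_ ?_
    · intro π _ J
      rfl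
    · intro v v' h1 h2 π hπ J
      change v _ + v' _ = v J + v' J
      rw [h1 π hπ J, h2 π hπ J]
    · intro z v h1 π hπ J
      change z * v _ = z * v J
      rw [h1 π hπ J]
    · intro t ht π hπ J
      exact congrArg T.ι (hV.sym t ht π hπ J)
  · -- stable
    intro Z hZ hZc
    have hZL : Z ∈ T.LC := (LC_iff hT Z).2 ⟨hZ, hZc⟩
    clear hZ hZc
    unfold GR.LC at hZL
    induction hZL using Submodule.span_induction with
    | mem Z h =>
      obtain ⟨y, hy, rfl⟩ := h
      have h1 : cspK T.ι V ≤ (cspK T.ι V).comap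
          (W338.PG.Ght.actL (fromBlocks 0 0 0 (y.map T.ι))) := by
        refine Submodule.span_le.2 ?_
        rintro _ ⟨v, hv, rfl⟩
        refine Submodule.subset_span ⟨_, hV.lie y hy v hv, ?_⟩
        funext J
        rw [ι_actK, fb_map]
        rfl
      exact fun v hv => h1 hv
    | zero =>
      intro v _
      have h1 : act (fromBlocks 0 0 0 (0 : Matrix (Fin n) (Fin n) ℂ) :
          Matrix (Fin s ⊕ Fin n) (Fin s ⊕ Fin n) ℂ) v = 0 := by
        rw [Matrix.fromBlocks_zero]
        funext J
        simp [act]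
      rw [h1]
      exact Submodule.zero_mem _
    | add A B _ _ hA hB =>
      intro v hv
      have h1 : act (fromBlocks 0 0 0 (A + B) : Matrix (Fin s ⊕ Fin n) (Fin s ⊕ Fin n) ℂ) v =
          act (fromBlocks 0 0 0 A) v + act (fromBlocks 0 0 0 B) v := by
        have h3 : (fromBlocks 0 0 0 (A + B) : Matrix (Fin s ⊕ Fin n) (Fin s ⊕ Fin n) ℂ) =
            fromBlocks 0 0 0 A + fromBlocks 0 0 0 B := by
          rw [Matrix.fromBlocks_add]
          simp
        rw [h3]
        funext J
        simp only [act, Matrix.add_apply, add_mul, Finset.sum_add_distrib, Pi.add_apply]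
      rw [h1]
      exact Submodule.add_mem _ (hA v hv) (hB v hv)
    | smul z A _ hA =>
      intro v hv
      have h1 : act (fromBlocks 0 0 0 (z • A) : Matrix (Fin s ⊕ Fin n) (Fin s ⊕ Fin n) ℂ) v =
          z • act (fromBlocks 0 0 0 A) v := by
        have h3 : (fromBlocks 0 0 0 (z • A) : Matrix (Fin s ⊕ Fin n) (Fin s ⊕ Fin n) ℂ) =
            z • fromBlocks 0 0 0 A := by
          rw [Matrix.fromBlocks_smul]
          simp
        rw [h3]
        funext J
        simp only [act, Matrix.smul_apply, smul_eq_mul, mul_assoc, ← Finset.mul_sum,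
          Pi.smul_apply]
      rw [h1]
      exact Submodule.smul_mem _ _ (hA v hv)
  · -- degrees
    refine csp_ind V (fun v => ∀ J, v J ≠ 0 → (∀ i, Sum.elim d c (J i) = a i) ∧
      ∑ i, Sum.elim cd (fun _ => 1) (J i) = k ∧
      ∀ i, (univ.filter fun x : Fin b => ∃ y z, f y = x ∧ J y = Sum.inr z ∧ c z = i).card ≤ p i)
      ?_ ?_ ?_ ?_
    · intro J hJ
      exact absurd rfl hJ
    · intro v v' h1 h2 J hJ
      by_cases hv : v J = 0
      · refine h2 J fun h => hJ ?_
        change v J + v' J = 0
        rw [hv, h, add_zero]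
      · exact h1 J hv
    · intro z v h1 J hJ
      refine h1 J fun h => hJ ?_
      change z * v J = 0
      rw [h, mul_zero]
    · intro t ht J hJ
      exact hV.deg t ht J (fun h => hJ (by simp only [h, map_zero]))

end

end Pool.Agent.W547.GTX
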