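import Pool.Agent.W547.GTX.Defs
import Pool.Agent.W352.PG.GHTP

/-!
# Re-insertion of algebraic classes, any field of coefficients (after `Pool.Agent.W352.PG.GHTP`)
-/

set_option autoImplicit false

open Matrix Finset Module

namespace Pool.Agent.W547.GTX

open Pool.Agent.W544.PG Pool.Agent.W338.PG.Ght

noncomputable section

variable {F : Type} [Field F] {n s m k : ℕ}

variable {q : Fin m → Fin s ⊕ Fin k} {ε : Fin k → Fin m}

/-- re-insertion -/
def rhoK (q : Fin m → Fin s ⊕ Fin k) :
    ((Fin k → Fin n) → F) →ₗ[F] ((Fin m → Fin s ⊕ Fin n) → F) where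
  toFun g J := ∑ K, if mrg q K = J then g K else 0
  map_add' a b := by
    funext J
    simp only [Pi.add_apply, ← sum_add_distrib]
    refine sum_congr rfl fun K _ => ?_
    split_ifs <;> simp
  map_smul' c a := by
    funext J
    simp only [Pi.smul_apply, smul_eq_mul, mul_sum, RingHom.id_apply]
    refine sum_congr rfl fun K _ => ?_
    split_ifs <;> simp

theorem rhoK_mrg (h : Pt q ε) (g : (Fin k → Fin n) → F) (K : Fin k → Fin n) :
    rhoK q g (mrg q K) = g K := by
  show (∑ K', if mrg q K' = mrg q K then g K' else 0) = g K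
  rw [sum_eq_single K (fun K' _ hK => if_neg fun he => hK (mrg_inj h he))
    (fun hK => absurd (mem_univ _) hK), if_pos rfl]

theorem rhoK_not (g : (Fin k → Fin n) → F) (J : Fin m → Fin s ⊕ Fin n)
    (h : ∀ K, mrg q K ≠ J) : rhoK q g J = 0 :=
  sum_eq_zero fun K _ => if_neg (h K)

theorem insK0 (Q : Matrix (Fin n) (Fin n) F) {r : ℕ} (c : Fin n → Fin r) (a' : Fin k → Fin r)
    (g : (Fin k → Fin n) → F) : g ∈ insK Q c a' 0 := by
  refine Submodule.subset_span ⟨id, g, fun _ => rfl, fun _ => rfl, by simp, fun J J' h => ?_,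
    fun J => ?_⟩
  · rw [show J = J' from funext fun j => h j rfl]
  · simp

theorem rhoK_coniv (Q : Matrix (Fin n) (Fin n) F) {r : ℕ} (c : Fin n → Fin r) (d : Fin s → Fin r) (h : Pt q ε)
    (cd : Fin s → ℕ) (a : Fin m → Fin r) (hd : ∀ i b, q i = Sum.inl b → d b = a i) (l j : ℕ)
    (hj : j ≤ ∑ i, Sum.elim cd (fun _ => 0) (q i) + 2 * l) {g : (Fin k → Fin n) → F}
    (hg : g ∈ insK Q c (fun i' => a (ε i')) l) : rhoK q g ∈ conivK Q c d cd a j := by
  have key : (insK Q c (fun i' => a (ε i')) l).map (rhoK q) ≤ conivK Q c d cd a j := by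
    unfold insK
    rw [Submodule.map_span_le]
    rintro f ⟨σ, u, hσ, hσa, hl, hu, hf⟩
    classical
    obtain ⟨σ', hσ'⟩ : ∃ σ' : Fin m → Fin m, ∀ i, σ' i =
      Sum.elim (fun _ => i) (fun i' => ε (σ i')) (q i) := ⟨_, fun _ => rfl⟩
    obtain ⟨ν, hν⟩ : ∃ ν : Fin m → Fin s → F, ∀ i, ν i =
      Sum.elim (fun a => Pi.single a 1) (fun _ => 0) (q i) := ⟨_, fun _ => rfl⟩
    obtain ⟨u', hu1, hu2⟩ : ∃ u' : (Fin m → Fin s ⊕ Fin n) → F,
        (∀ J K, (∀ i', σ i' = i' → J (ε i') = Sum.inr (K i')) → u' J = u K) ∧
        ∀ J, (¬ ∃ K : Fin k → Fin n, ∀ i', σ i' = i' → J (ε i') = Sum.inr (K i')) →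
          u' J = 0 := by
      refine ⟨fun J => if h : ∃ K : Fin k → Fin n, ∀ i', σ i' = i' →
        J (ε i') = Sum.inr (K i') then u (Classical.choose h) else 0, ?_, ?_⟩
      · intro J K hK
        have hex : ∃ K : Fin k → Fin n, ∀ i', σ i' = i' → J (ε i') = Sum.inr (K i') := ⟨K, hK⟩
        beta_reduce
        rw [dif_pos hex]
        refine hu _ _ fun i' hi' => ?_
        have h1 := Classical.choose_spec hex i' hi'
        rw [hK i' hi'] at h1
        exact (Sum.inr_injective h1).symm
      · intro J hJ
        beta_reduce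
        rw [dif_neg hJ]
    have hσe : ∀ i', σ' (ε i') = ε (σ i') := fun i' => by rw [hσ', h.qe]; rfl
    refine Submodule.subset_span ⟨univ.filter (fun i => (q i).isLeft = true), σ',
      fun i => Sum.elim cd (fun _ => 0) (q i), ν, u', fun i => ?_, fun i => ?_, fun i hi => ?_,
      fun i b hb => ?_, fun J J' hJ => ?_, ?_, fun J => ?_⟩
    · rcases hq : q i with b | i'
      · have h1 : σ' i = i := by rw [hσ', hq]; rfl
        rw [h1, h1]
      · rw [← h.eq i i' hq, hσe, hσe, hσ]
    · rcases hq : q i with b | i'
      · have h1 : σ' i = i := by rw [hσ', hq]; rfl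
        rw [h1]
      · rw [← h.eq i i' hq, hσe]
        exact hσa i'
    · rw [mem_filter] at hi
      rcases hq : q i with b | i'
      · rw [hσ', hq]; rfl
      · rw [hq] at hi
        exact absurd hi.2 (by simp)
    · rw [hν] at hb
      rcases hq : q i with b' | i'
      · rw [hq, Sum.elim_inl] at hb
        have : b = b' := by
          by_contra hab
          exact hb (Pi.single_eq_of_ne hab 1)
        beta_reduce
        rw [this, hq]
        exact ⟨rfl, hd i b' hq⟩
      · rw [hq, Sum.elim_inr] at hb
        exact absurd rfl hb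
    · have h1 : ∀ i', σ i' = i' → J (ε i') = J' (ε i') := fun i' hi' => by
        refine hJ _ ?_ ?_
        · rw [mem_filter, h.qe]
          simp
        · rw [hσe, hi']
      by_cases hex : ∃ K : Fin k → Fin n, ∀ i', σ i' = i' → J (ε i') = Sum.inr (K i')
      · obtain ⟨K, hK⟩ := hex
        rw [hu1 J K hK, hu1 J' K fun i' hi' => by rw [← h1 i' hi']; exact hK i' hi']
      · rw [hu2 J hex, hu2 J']
        rintro ⟨K, hK⟩
        exact hex ⟨K, fun i' hi' => by rw [h1 i' hi']; exact hK i' hi'⟩
    · have h1 : ∑ i ∈ univ.filter (fun i => (q i).isLeft = true),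
          Sum.elim cd (fun _ => 0) (q i) = ∑ i, Sum.elim cd (fun _ => 0) (q i) := by
        refine sum_subset (filter_subset _ _) fun i _ hi => ?_
        rw [mem_filter] at hi
        rcases hq : q i with b | i'
        · exfalso
          apply hi
          rw [hq]
          exact ⟨mem_univ _, rfl⟩
        · rfl
      have h2 : (univ.filter fun i' => σ i' ≠ i').card ≤ (univ.filter fun i => σ' i ≠ i).card := by
        refine card_le_card_of_injOn ε (fun i' hi' => ?_) (h.mono.injective.injOn)
        have h3 := (mem_filter.1 (mem_coe.1 hi')).2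
        refine mem_coe.2 (mem_filter.2 ⟨mem_univ _, ?_⟩)
        rw [hσe]
        exact fun he => h3 (h.mono.injective he)
      rw [h1]
      omega
    · by_cases hJ : ∃ K, mrg q K = J
      · obtain ⟨K, rfl⟩ := hJ
        rw [rhoK_mrg h, hf K, hu1 _ K fun i' _ => mrg_e h K i']
        have h1 : ∏ i ∈ univ.filter (fun i => (q i).isLeft = true),
            Sum.elim (ν i) (fun _ => (0 : F)) (mrg q K i) = 1 := by
          refine prod_eq_one fun i hi => ?_
          rw [mem_filter] at hi
          rw [hν]
          unfold mrg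
          rcases hq : q i with b | i'
          · simp
          · rw [hq] at hi
            exact absurd hi.2 (by simp)
        have h2 : (univ.filter fun i => i < σ' i) =
            (univ.filter fun i' => i' < σ i').image ε := by
          ext i
          rw [mem_filter, mem_image]
          constructor
          · rintro ⟨-, hi⟩
            rcases hq : q i with b | i'
            · rw [hσ', hq, Sum.elim_inl] at hi
              exact absurd hi (lt_irrefl _)
            · have h3 := h.eq i i' hq
              rw [← h3, hσe] at hi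
              exact ⟨i', mem_filter.2 ⟨mem_univ _, h.mono.lt_iff_lt.1 hi⟩, h3⟩
          · rintro ⟨i', hi', rfl⟩
            refine ⟨mem_univ _, ?_⟩
            rw [hσe]
            exact h.mono (mem_filter.1 hi').2
        rw [h1, one_mul, h2, prod_image (fun a _ b _ hab => h.mono.injective hab)]
        congr 1
        refine prod_congr rfl fun i' _ => ?_
        rw [hσe, mrg_e h, mrg_e h, fromBlocks_apply₂₂, Sum.elim_inr]
      · rw [rhoK_not _ _ fun K hK => hJ ⟨K, hK⟩]
        by_contra hne
        have hne' := Ne.symm hne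
        obtain ⟨h12, h3⟩ := mul_ne_zero_iff.1 hne'
        obtain ⟨h1, h2⟩ := mul_ne_zero_iff.1 h12
        rw [prod_ne_zero_iff] at h1 h2
        have a1 : ∀ i b, q i = Sum.inl b → J i = Sum.inl b := by
          intro i b hb
          have h4 := h1 i (mem_filter.2 ⟨mem_univ _, by rw [hb]; rfl⟩)
          rw [hν, hb, Sum.elim_inl] at h4
          rcases hJi : J i with a | a
          · rw [hJi, Sum.elim_inl] at h4
            by_contra hab
            refine h4 (Pi.single_eq_of_ne (fun he => hab ?_) 1)
            rw [he]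
          · rw [hJi, Sum.elim_inr] at h4
            exact absurd rfl h4
        have a2 : ∀ i', i' < σ i' → (∃ c, J (ε i') = Sum.inr c) ∧
            ∃ c, J (ε (σ i')) = Sum.inr c := by
          intro i' hi'
          have h4 := h2 (ε i') (mem_filter.2 ⟨mem_univ _, by rw [hσe]; exact h.mono hi'⟩)
          rw [hσe] at h4
          have h5 : fromBlocks (0 : Matrix (Fin s) (Fin s) F) 0 0 Q (J (ε i'))
              (J (ε (σ i'))) ≠ 0 := by
            intro h0
            apply h4
            rw [h0, ite_self]
          rcases hJ1 : J (ε i') with a | a <;> rcases hJ2 : J (ε (σ i')) with b | b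
          · rw [hJ1, hJ2, fromBlocks_apply₁₁] at h5
            exact absurd rfl h5
          · rw [hJ1, hJ2, fromBlocks_apply₁₂] at h5
            exact absurd rfl h5
          · rw [hJ1, hJ2, fromBlocks_apply₂₁] at h5
            exact absurd rfl h5
          · exact ⟨⟨a, rfl⟩, b, rfl⟩
        have a3 : ∃ K0 : Fin k → Fin n, ∀ i', σ i' = i' → J (ε i') = Sum.inr (K0 i') := by
          by_contra hno
          exact h3 (hu2 J hno)
        obtain ⟨K0, hK0⟩ := a3
        have a4 : ∀ i', ∃ c, J (ε i') = Sum.inr c := by
          intro i'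
          rcases lt_trichotomy i' (σ i') with hlt | heq | hgt
          · exact (a2 i' hlt).1
          · exact ⟨_, hK0 i' heq.symm⟩
          · have h4 := (a2 (σ i') (by rw [hσ]; exact hgt)).2
            rwa [hσ] at h4
        choose K hK using a4
        refine hJ ⟨K, funext fun i => ?_⟩
        unfold mrg
        rcases hq : q i with b | i'
        · rw [a1 i b hq]
          rfl
        · rw [← h.eq i i' hq, hK]
          rfl
  exact key ⟨g, hg, rfl⟩


end

end Pool.Agent.W547.GTX
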